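import Mathlib

set_option autoImplicit false
set_option maxSynthPendingDepth 3
open Set Topology Filter

namespace Pool.Agent.KS7_39.A66

universe u v

/-- The common kernel of `n` functionals is `3 ^ n`-complemented. -/
lemma proj : ∀ (n : ℕ) (W : Type u) [NormedAddCommGroup W] [NormedSpace ℝ W]
    (f : Fin n → W →L[ℝ] ℝ), ∃ Q : W →L[ℝ] W, (∀ w i, f i (Q w) = 0) ∧
      (∀ w, (∀ i, f i w = 0) → Q w = w) ∧ ‖Q‖ ≤ 3 ^ n := by
  intro n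
  induction n with
  | zero =>
    intro W _ _ f
    exact ⟨.id ℝ W, fun _ i => i.elim0, fun _ _ => rfl, by
      simpa using ContinuousLinearMap.norm_id_le⟩
  | succ n ih =>
    intro W _ _ f
    by_cases h0 : f 0 = 0
    · obtain ⟨Q, h1, h2, h3⟩ := ih W fun i => f i.succ
      refine ⟨Q, fun w i => ?_, fun w hw => h2 w fun i => hw _, h3.trans ?_⟩
      · refine Fin.cases ?_ (fun i => ?_) i
        · rw [h0]; rfl
        · exact h1 w i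
      · exact pow_le_pow_right₀ (by norm_num) n.le_succ
    · have hn : 0 < ‖f 0‖ := norm_pos_iff.2 h0
      obtain ⟨x, hx1, hx2⟩ := (f 0).exists_lt_apply_of_lt_opNorm (r := ‖f 0‖ / 2) (by linarith)
      have hfx : f 0 x ≠ 0 := fun h => by
        rw [h, norm_zero] at hx2; linarith
      let e : W := (f 0 x)⁻¹ • x
      have he1 : f 0 e = 1 := by simp [e, hfx]
      have he2 : ‖f 0‖ * ‖e‖ ≤ 2 := by
        rw [norm_smul, norm_inv]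
        have hp : 0 < ‖f 0 x‖ := norm_pos_iff.2 hfx
        have : ‖f 0 x‖⁻¹ * ‖x‖ ≤ ‖f 0 x‖⁻¹ := mul_le_of_le_one_right (by positivity) hx1.le
        calc ‖f 0‖ * (‖f 0 x‖⁻¹ * ‖x‖) ≤ ‖f 0‖ * ‖f 0 x‖⁻¹ := by gcongr
          _ ≤ 2 := by rw [← div_eq_mul_inv, div_le_iff₀ hp]; linarith
      let H : Submodule ℝ W := LinearMap.ker (f 0 : W →ₗ[ℝ] ℝ)
      obtain ⟨Q, h1, h2, h3⟩ := ih H fun i => (f i.succ).comp H.subtypeL
      let P0 : W →L[ℝ] W := .id ℝ W - (f 0).smulRight e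
      have hP0 : ∀ w, P0 w ∈ H := fun w => by
        change f 0 (w - f 0 w • e) = 0
        rw [map_sub, map_smul, he1, smul_eq_mul, mul_one, sub_self]
      have nP0 : ∀ w, ‖P0 w‖ ≤ 3 * ‖w‖ := fun w => by
        change ‖w - f 0 w • e‖ ≤ _
        refine (norm_sub_le _ _).trans ?_
        rw [norm_smul]
        have b1 := (f 0).le_opNorm w
        have b2 : ‖f 0 w‖ * ‖e‖ ≤ (‖f 0‖ * ‖e‖) * ‖w‖ := by
          calc ‖f 0 w‖ * ‖e‖ ≤ (‖f 0‖ * ‖w‖) * ‖e‖ := by gcongr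
            _ = _ := by ring
        have b3 : (‖f 0‖ * ‖e‖) * ‖w‖ ≤ 2 * ‖w‖ := by gcongr
        linarith
      let P1 : W →L[ℝ] H := P0.codRestrict H hP0
      have hker : ∀ h : H, f 0 (h : W) = 0 := fun h => h.2
      refine ⟨H.subtypeL.comp (Q.comp P1), fun w i => ?_, fun w hw => ?_, ?_⟩
      · refine Fin.cases ?_ (fun i => ?_) i
        · exact hker _
        · exact h1 (P1 w) i
      · have hPw : P1 w = ⟨w, hw 0⟩ := Subtype.ext (by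
          change w - f 0 w • e = w
          rw [hw 0, zero_smul, sub_zero])
        change ((Q (P1 w) : H) : W) = w
        rw [hPw, h2 _ fun i => hw i.succ]
      · refine ContinuousLinearMap.opNorm_le_bound _ (by positivity) fun w => ?_
        change ‖((Q (P1 w) : H) : W)‖ ≤ _
        rw [← Submodule.coe_norm]
        refine (Q.le_opNorm _).trans ?_
        have : ‖P1 w‖ ≤ 3 * ‖w‖ := nP0 w
        calc ‖Q‖ * ‖P1 w‖ ≤ 3 ^ n * (3 * ‖w‖) := by gcongr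
          _ = 3 ^ (n + 1) * ‖w‖ := by ring

section
variable (Y : Type u) [NormedAddCommGroup Y] [NormedSpace ℝ Y] [CompleteSpace Y]

/-- A space of finite codimension `n` in its bidual is `3 ^ n`-complemented in it. -/
lemma exists_proj [FiniteDimensional ℝ
      (((Y →L[ℝ] ℝ) →L[ℝ] ℝ) ⧸ LinearMap.range (NormedSpace.inclusionInDoubleDual ℝ Y : Y →ₗ[ℝ] ((Y →L[ℝ] ℝ) →L[ℝ] ℝ)))] :
    ∃ P : ((Y →L[ℝ] ℝ) →L[ℝ] ℝ) →L[ℝ] Y,
      (∀ y : Y, P (NormedSpace.inclusionInDoubleDual ℝ Y y) = y) ∧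
      ‖P‖ ≤ 3 ^ Module.finrank ℝ (((Y →L[ℝ] ℝ) →L[ℝ] ℝ) ⧸
        LinearMap.range (NormedSpace.inclusionInDoubleDual ℝ Y : Y →ₗ[ℝ] ((Y →L[ℝ] ℝ) →L[ℝ] ℝ))) := by
  set R := LinearMap.range (NormedSpace.inclusionInDoubleDual ℝ Y : Y →ₗ[ℝ] ((Y →L[ℝ] ℝ) →L[ℝ] ℝ))
    with hR
  let Ji : Y →ₗᵢ[ℝ] ((Y →L[ℝ] ℝ) →L[ℝ] ℝ) := NormedSpace.inclusionInDoubleDualLi ℝ
  have hJi : ∀ y, Ji y = NormedSpace.inclusionInDoubleDual ℝ Y y := fun _ => rfl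
  have hcl : IsClosed (R : Set ((Y →L[ℝ] ℝ) →L[ℝ] ℝ)) := by
    have : (R : Set ((Y →L[ℝ] ℝ) →L[ℝ] ℝ)) = range Ji := by
      ext; simp [hR, hJi]
    rw [this]
    exact Ji.isometry.isClosedEmbedding.isClosed_range
  have : IsClosed (R : Set ((Y →L[ℝ] ℝ) →L[ℝ] ℝ)) := hcl
  let b := Module.finBasis ℝ (((Y →L[ℝ] ℝ) →L[ℝ] ℝ) ⧸ R)
  let f : Fin (Module.finrank ℝ (((Y →L[ℝ] ℝ) →L[ℝ] ℝ) ⧸ R)) →
      ((Y →L[ℝ] ℝ) →L[ℝ] ℝ) →L[ℝ] ℝ := fun i =>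
    (LinearMap.toContinuousLinearMap (b.coord i)).comp R.mkQL
  obtain ⟨Q, h1, h2, h3⟩ := proj _ _ f
  have hmem : ∀ Φ, (∀ i, f i Φ = 0) ↔ Φ ∈ R := fun Φ => by
    rw [← Submodule.Quotient.mk_eq_zero]
    constructor
    · intro h
      exact b.ext_elem fun i => by simpa [f] using h i
    · intro h i
      simp [f, h]
  have hQ : ∀ Φ, ∃ y, Ji y = Q Φ := fun Φ => by
    have := (hmem (Q Φ)).1 fun i => h1 Φ i
    exact this
  choose p hp using hQ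
  let P : ((Y →L[ℝ] ℝ) →L[ℝ] ℝ) →ₗ[ℝ] Y :=
    { toFun := p
      map_add' := fun a b => Ji.injective (by rw [map_add, hp, hp, hp, map_add])
      map_smul' := fun c a => Ji.injective (by rw [RingHom.id_apply, map_smul, hp, hp, map_smul]) }
  have hPb : ∀ Φ, ‖P Φ‖ ≤ ‖Q‖ * ‖Φ‖ := fun Φ => by
    have : ‖P Φ‖ = ‖Q Φ‖ := by
      rw [← Ji.norm_map]
      exact congrArg _ (hp Φ)
    rw [this]
    exact Q.le_opNorm Φ
  refine ⟨P.mkContinuous ‖Q‖ hPb, fun y => Ji.injective ?_,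
    (LinearMap.mkContinuous_norm_le _ (norm_nonneg _) _).trans h3⟩
  change Ji (p _) = Ji y
  rw [hp]
  exact h2 _ ((hmem _).2 ⟨y, rfl⟩)
end

/-- Isomorphic spaces have isomorphic quotients `X**/X`. -/
lemma quot_equiv (X : Type u) [NormedAddCommGroup X] [NormedSpace ℝ X]
    (Y : Type v) [NormedAddCommGroup Y] [NormedSpace ℝ Y] (e : X ≃L[ℝ] Y) :
    Nonempty ((((X →L[ℝ] ℝ) →L[ℝ] ℝ) ⧸
        LinearMap.range (NormedSpace.inclusionInDoubleDual ℝ X : X →ₗ[ℝ] ((X →L[ℝ] ℝ) →L[ℝ] ℝ)))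
      ≃ₗ[ℝ] (((Y →L[ℝ] ℝ) →L[ℝ] ℝ) ⧸
        LinearMap.range (NormedSpace.inclusionInDoubleDual ℝ Y : Y →ₗ[ℝ] ((Y →L[ℝ] ℝ) →L[ℝ] ℝ)))) := by
  let e1 : (X →L[ℝ] ℝ) ≃L[ℝ] (Y →L[ℝ] ℝ) := e.arrowCongr (.refl ℝ ℝ)
  let e2 : ((X →L[ℝ] ℝ) →L[ℝ] ℝ) ≃L[ℝ] ((Y →L[ℝ] ℝ) →L[ℝ] ℝ) := e1.arrowCongr (.refl ℝ ℝ)
  have he : ∀ x, e2 (NormedSpace.inclusionInDoubleDual ℝ X x) =
      NormedSpace.inclusionInDoubleDual ℝ Y (e x) := fun x => by
    ext ψ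
    simp [e2, e1, ContinuousLinearEquiv.arrowCongr]
  refine ⟨Submodule.Quotient.equiv _ _ e2.toLinearEquiv ?_⟩
  ext Φ
  constructor
  · rintro ⟨_, ⟨x, rfl⟩, rfl⟩
    exact ⟨e x, (he x).symm⟩
  · rintro ⟨y, rfl⟩
    exact ⟨_, ⟨e.symm y, rfl⟩, (he _).trans (by rw [e.apply_symm_apply]; rfl)⟩

end Pool.Agent.KS7_39.A66
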