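import Mathlib

set_option autoImplicit false
open Set Topology Filter

namespace Pool.Agent.KS7_39.A66

section
variable {E : Type*} [NormedAddCommGroup E] [NormedSpace ℝ E]

/-- Finite form of the Goldstine theorem. -/
theorem gold (G : (E →L[ℝ] ℝ) →L[ℝ] ℝ) {s : Set (E →L[ℝ] ℝ)} (hs : s.Finite) {η : ℝ}
    (hη : 0 < η) : ∃ e : E, ‖e‖ ≤ ‖G‖ ∧ ∀ f ∈ s, |f e - G f| ≤ η := by
  classical
  have := hs.fintype
  let A : E →L[ℝ] (s → ℝ) := ContinuousLinearMap.pi fun f : s => f.1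
  have hc : Convex ℝ (A '' Metric.closedBall 0 ‖G‖) :=
    (convex_closedBall _ _).linear_image (A : E →ₗ[ℝ] (s → ℝ))
  have hmem : (fun f : s => G f.1) ∈ closure (A '' Metric.closedBall 0 ‖G‖) := by
    by_contra hn
    obtain ⟨l, u, h1, h2⟩ := geometric_hahn_banach_closed_point hc.closure isClosed_closure hn
    have h3 : ∀ w : s → ℝ, l w = ∑ f, w f * l (Pi.single f 1) := by
      intro w
      conv_lhs => rw [pi_eq_sum_univ' w]
      simp only [map_sum, map_smul, smul_eq_mul]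
    let h : E →L[ℝ] ℝ := ∑ f : s, l (Pi.single f 1) • f.1
    have h4 : ∀ e, h e = l (A e) := by
      intro e
      rw [h3]
      simp [h, A, mul_comm]
    have h5 : G h = l fun f : s => G f.1 := by
      rw [h3]
      simp [h, mul_comm]
    have h6 : ∀ e, ‖e‖ ≤ ‖G‖ → h e < u := fun e he => by
      rw [h4]; exact h1 _ (subset_closure ⟨e, by simpa using he, rfl⟩)
    have h7 : u < ‖G‖ * ‖h‖ := by
      rw [← h5] at h2
      exact h2.trans_le ((le_abs_self _).trans (G.le_opNorm h))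
    have h8 : 0 < u := by simpa using h6 0 (by rw [norm_zero]; exact G.opNorm_nonneg)
    have h9 : 0 < ‖G‖ := by
      by_contra h0
      have : ‖G‖ = 0 := le_antisymm (not_lt.1 h0) G.opNorm_nonneg
      rw [this] at h7
      linarith
    obtain ⟨x, hx1, hx2⟩ := h.exists_lt_apply_of_lt_opNorm (r := u / ‖G‖)
      (by rw [div_lt_iff₀ h9]; linarith)
    rw [div_lt_iff₀ h9, Real.norm_eq_abs] at hx2
    have h10 : ‖‖G‖ • x‖ ≤ ‖G‖ := by
      rw [norm_smul, Real.norm_eq_abs, abs_of_pos h9]; exact mul_le_of_le_one_right h9.le hx1.le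
    have a1 := h6 _ h10
    have a2 := h6 (-(‖G‖ • x)) (by rwa [norm_neg])
    simp only [map_neg, map_smul, smul_eq_mul] at a1 a2
    rcases abs_cases (h x) with h | h <;> rw [h.1] at hx2 <;> linarith
  obtain ⟨_, ⟨e, he, rfl⟩, h2⟩ := Metric.mem_closure_iff.1 hmem η hη
  refine ⟨e, by simpa using he, fun f hf => ?_⟩
  have := (dist_le_pi_dist _ _ (⟨f, hf⟩ : s)).trans h2.le
  rw [Real.dist_eq, abs_sub_comm] at this
  exact this

/-- Weak-star limits along an ultrafilter. -/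
theorem ulim (f : ℕ → E →L[ℝ] ℝ) {C : ℝ} (h : ∀ n, ‖f n‖ ≤ C) :
    ∃ g : E →L[ℝ] ℝ, ‖g‖ ≤ C ∧ ∀ z, Tendsto (fun n => f n z) (hyperfilter ℕ) (𝓝 (g z)) := by
  have hK := WeakDual.isCompact_closedBall (𝕜 := ℝ) (E := E) 0 C
  obtain ⟨g, hg, hl⟩ := hK.ultrafilter_le_nhds
    ((hyperfilter ℕ).map fun n => StrongDual.toWeakDual (f n)) (by
      rw [le_principal_iff, Ultrafilter.coe_map, mem_map]
      exact Eventually.of_forall fun n => by simpa using h n)
  refine ⟨WeakDual.toStrongDual g, by simpa using hg, fun z => ?_⟩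
  exact ((WeakDual.eval_continuous z).tendsto g).comp hl

end

theorem pigeon {ι : Type} [Fintype ι] (u : ℕ → ι → ℝ) {C : ℝ} (h : ∀ n i, |u n i| ≤ C) {η : ℝ}
    (hη : 0 < η) (n : ℕ) : ∃ k k', n < k ∧ k < k' ∧ ∀ i, |u k i - u k' i| ≤ η := by
  obtain ⟨a, -, φ, hφ, ha⟩ := tendsto_subseq_of_bounded
    (Metric.isBounded_closedBall (x := (0 : ι → ℝ)) (r := max C 0)) (x := u) (fun n => by
      rw [mem_closedBall_zero_iff, pi_norm_le_iff_of_nonneg (le_max_right _ _)]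
      exact fun i => (h n i).trans (le_max_left _ _))
  obtain ⟨N, hN⟩ := Metric.cauchySeq_iff.1 ha.cauchySeq η hη
  refine ⟨φ (N + n + 1), φ (N + n + 2), lt_of_lt_of_le (show n < N + n + 1 by omega) (hφ.id_le _), hφ (by omega),
    fun i => ?_⟩
  exact (dist_le_pi_dist _ _ i).trans (hN _ (by omega) _ (by omega)).le

section
variable {W : Type*} [NormedAddCommGroup W] [NormedSpace ℝ W]

theorem tri_step (E0 : Submodule ℝ W) (h0 : IsClosed (E0 : Set W))
    (hX : ∀ n : ℕ, ∃ φ : Fin n → W, ∀ c : Fin n → ℝ, ∑ i, c i • φ i ∈ E0 → c = 0)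
    (s : Finset W) :
    ∃ (F : W) (G : W →L[ℝ] ℝ), ‖F‖ ≤ 2 ∧ ‖G‖ ≤ 1 ∧
      (∀ x ∈ E0, G x = 0) ∧ G F = 1 ∧ ∀ H ∈ s, G H = 0 := by
  classical
  let E1 : Submodule ℝ W := Submodule.span ℝ (s : Set _)
  have h1 : IsClosed ((E0 ⊔ E1 : Submodule ℝ _) : Set W) :=
    Submodule.isClosed_sup_finiteDimensional E0 E1 h0
  obtain ⟨φ, hφ⟩ := hX (s.card + 1)
  obtain ⟨j, hj⟩ : ∃ j, φ j ∉ E0 ⊔ E1 := by
    by_contra hc
    push Not at hc
    choose y hy z hz hyz using fun j => Submodule.mem_sup.1 (hc j)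
    have h2 : ¬ LinearIndependent ℝ fun j => (⟨z j, hz j⟩ : E1) := by
      intro hl
      have a1 := hl.fintype_card_le_finrank
      have a2 : Module.finrank ℝ E1 ≤ s.card := finrank_span_finset_le_card s
      simp at a1
      omega
    obtain ⟨c, hc1, i, hi⟩ := Fintype.not_linearIndependent_iff.1 h2
    have h3 : ∑ j, c j • z j = 0 := by
      simpa using congrArg Subtype.val hc1
    refine hi (congrFun (hφ c ?_) i)
    simp only [← hyz, smul_add, Finset.sum_add_distrib, h3, add_zero]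
    exact E0.sum_mem fun j _ => E0.smul_mem _ (hy j)
  obtain ⟨l, u, h2, h3⟩ := geometric_hahn_banach_closed_point (E0 ⊔ E1).convex h1 hj
  have h4 : ∀ w ∈ E0 ⊔ E1, l w = 0 := by
    intro w hw
    by_contra hne
    have := h2 _ ((E0 ⊔ E1).smul_mem (u / l w) hw)
    rw [map_smul, smul_eq_mul, div_mul_cancel₀ _ hne] at this
    exact lt_irrefl _ this
  have h5 : 0 < ‖l‖ := by
    rw [norm_pos_iff]
    rintro rfl
    have := h2 0 (zero_mem _)
    simp only [ContinuousLinearMap.zero_apply] at this h3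
    linarith
  obtain ⟨x, hx1, hx2⟩ := l.exists_lt_apply_of_lt_opNorm (r := ‖l‖ / 2) (by linarith)
  have h6 : l x ≠ 0 := by
    rw [← norm_pos_iff]; linarith
  refine ⟨(‖l‖ / l x) • x, ‖l‖⁻¹ • l, ?_, ?_, fun y hy => ?_, ?_, fun H hH => ?_⟩
  · rw [norm_smul, norm_div, norm_norm]
    have : ‖l‖ / ‖l x‖ ≤ 2 := by rw [div_le_iff₀ (by linarith)]; linarith
    nlinarith [norm_nonneg x, div_nonneg h5.le (norm_nonneg (l x))]
  · rw [norm_smul, norm_inv, norm_norm, inv_mul_cancel₀ h5.ne']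
  · rw [ContinuousLinearMap.smul_apply, h4 _ (Submodule.mem_sup_left hy), smul_zero]
  · simp only [ContinuousLinearMap.smul_apply, map_smul, smul_eq_mul]
    field_simp
  · rw [ContinuousLinearMap.smul_apply,
      h4 _ (Submodule.mem_sup_right (Submodule.subset_span hH)), smul_zero]

theorem biorth (E0 : Submodule ℝ W) (h0 : IsClosed (E0 : Set W))
    (hX : ∀ n : ℕ, ∃ φ : Fin n → W, ∀ c : Fin n → ℝ, ∑ i, c i • φ i ∈ E0 → c = 0)
    {η : ℝ} (hη : 0 < η) :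
    ∃ (F : ℕ → W) (G : ℕ → W →L[ℝ] ℝ),
      (∀ m, ‖F m‖ ≤ 4) ∧ (∀ m, ‖G m‖ ≤ 1) ∧ (∀ m, ∀ x ∈ E0, G m x = 0) ∧
      ∀ m k, |G m (F k) - if m = k then 1 else 0| ≤ η := by
  classical
  obtain ⟨p, hp, hr⟩ := exists_seq_of_forall_finset_exists
    (fun q : W × (W →L[ℝ] ℝ) => ‖q.1‖ ≤ 2 ∧ ‖q.2‖ ≤ 1 ∧ (∀ x ∈ E0, q.2 x = 0) ∧ q.2 q.1 = 1)
    (fun q q' => q'.2 q.1 = 0) (fun s _ => by
      obtain ⟨F, G, h1, h2, h3, h4, h5⟩ := tri_step E0 h0 hX (s.image Prod.fst)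
      exact ⟨(F, G), ⟨h1, h2, h3, h4⟩, fun q hq => h5 _ (Finset.mem_image_of_mem _ hq)⟩)
  have key : ∀ n : ℕ, ∃ k k', n < k ∧ k < k' ∧
      ∀ i : Fin (n + 1), |(p i).2 (p k).1 - (p i).2 (p k').1| ≤ η := fun n =>
    pigeon (fun k (i : Fin (n + 1)) => (p i).2 (p k).1) (C := 2) (fun k i =>
      ((p i).2.le_opNorm _).trans (by
        nlinarith [(hp i).2.1, (hp k).1, norm_nonneg (p k).1, norm_nonneg (p i).2])) hη n
  choose k k' h1 h2 h3 using key
  let n : ℕ → ℕ := fun j => k'^[j] 0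
  have hn : ∀ j, n (j + 1) = k' (n j) := fun j => Function.iterate_succ_apply' _ _ _
  have hmono : StrictMono n := strictMono_nat_of_lt_succ fun j => by
    rw [hn]; exact (h1 _).trans (h2 _)
  refine ⟨fun j => (p (n (j + 1))).1 - (p (k (n j))).1, fun j => (p (n (j + 1))).2,
    fun j => (norm_sub_le _ _).trans (by linarith [(hp (n (j + 1))).1, (hp (k (n j))).1]),
    fun j => (hp _).2.1, fun j => (hp _).2.2.1, fun i j => ?_⟩
  simp only [map_sub]
  have a1 : k (n j) < n (j + 1) := by rw [hn]; exact h2 _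
  rcases lt_trichotomy i j with h | rfl | h
  · have a2 : n (i + 1) ≤ n j := hmono.monotone h
    have := h3 (n j) ⟨n (i + 1), by omega⟩
    rw [if_neg h.ne, sub_zero, abs_sub_comm, hn j]
    exact this
  · rw [(hp _).2.2.2, hr _ _ a1]
    simp [hη.le]
  · have a2 : n (j + 1) < n (i + 1) := hmono (by omega)
    rw [hr _ _ a2, hr _ _ (a1.trans a2), if_neg h.ne']
    simp [hη.le]

end

variable {X : Type*} [NormedAddCommGroup X] [NormedSpace ℝ X] [CompleteSpace X]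

theorem clos {W : Type*} [NormedAddCommGroup W] [NormedSpace ℝ W] (J : X →ₗᵢ[ℝ] W) :
    IsClosed (range J) :=
  J.antilipschitz.isClosed_range J.isometry.uniformContinuous

theorem system
    (hX : ∀ n : ℕ, ∃ φ : Fin n → ((X →L[ℝ] ℝ) →L[ℝ] ℝ),
      ∀ (c : Fin n → ℝ) (x : X), (∀ f : X →L[ℝ] ℝ, ∑ i, c i * φ i f = f x) → c = 0)
    {η : ℝ} (hη : 0 < η) :
    ∃ (v : ℕ → ℕ → X) (φ : ℕ → ℕ → X →L[ℝ] ℝ) (a : ℕ → ℕ → ℕ → ℝ),
      (∀ k s, ‖v k s‖ ≤ 4) ∧ (∀ m t, ‖φ m t‖ ≤ 2) ∧ (∀ m t k, |a m t k| ≤ 4) ∧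
      (∀ m t k, m ≤ t → k ≤ t → |a m t k - if m = k then 1 else 0| ≤ 2 * η) ∧
      (∀ m t k s, m ≤ t → k ≤ s → |φ m t (v k s) - if t ≤ s then a m t k else 0| ≤ 2 * η) ∧
      ∀ m x, Tendsto (fun t => φ m t x) (hyperfilter ℕ) (𝓝 0) := by
  classical
  let J := NormedSpace.inclusionInDoubleDual ℝ X
  have hJ : IsClosed (range J) :=
    clos (W := StrongDual ℝ (StrongDual ℝ X)) (NormedSpace.inclusionInDoubleDualLi ℝ (E := X))
  obtain ⟨F, G, hF, hG, hG0, hGF⟩ := biorth (W := StrongDual ℝ (StrongDual ℝ X))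
    (LinearMap.range (J : X →ₗ[ℝ] StrongDual ℝ (StrongDual ℝ X))) (by exact hJ) (fun n => by
      obtain ⟨φ, hφ⟩ := hX n
      refine ⟨φ, fun c ⟨x, hx⟩ => hφ c x fun f => ?_⟩
      have := congrArg (fun H : StrongDual ℝ (StrongDual ℝ X) => H f) hx
      simp only [ContinuousLinearMap.sum_apply, ContinuousLinearMap.smul_apply, smul_eq_mul] at this
      exact this.symm) hη
  obtain ⟨p, hp, hr⟩ := exists_seq_of_forall_finset_exists
    (fun q : ℕ × (ℕ → X →L[ℝ] ℝ) × (ℕ → X) => (∀ m, ‖q.2.1 m‖ ≤ 1) ∧ (∀ k, ‖q.2.2 k‖ ≤ 4) ∧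
      (∀ m, ∀ k ≤ q.1, |F k (q.2.1 m) - G m (F k)| ≤ η) ∧
      ∀ m ≤ q.1, ∀ k, |q.2.1 m (q.2.2 k) - F k (q.2.1 m)| ≤ η)
    (fun q q' => q.1 < q'.1 ∧ (∀ m, ∀ k ≤ q.1, |q'.2.1 m (q.2.2 k)| ≤ η) ∧
      ∀ m ≤ q.1, ∀ k, |q.2.1 m (q'.2.2 k) - F k (q.2.1 m)| ≤ η) (fun s _ => by
      let n := s.sup Prod.fst + 1
      have f1 : (F '' Iic n ∪ ⋃ q ∈ s, (fun k => J (q.2.2 k)) '' Iic q.1).Finite :=
        ((finite_Iic n).image _).union
          (s.finite_toSet.biUnion fun q _ => (finite_Iic _).image _)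
      choose φ h1 h2 using fun m => gold (G m) f1 hη
      have f2 : (φ '' Iic n ∪ ⋃ q ∈ s, q.2.1 '' Iic q.1).Finite :=
        ((finite_Iic n).image _).union
          (s.finite_toSet.biUnion fun q _ => (finite_Iic _).image _)
      choose v h3 h4 using fun k => gold (F k) f2 hη
      refine ⟨(n, φ, v), ⟨fun m => (h1 m).trans (hG m), fun k => (h3 k).trans (hF k),
        fun m k hk => h2 m _ (Or.inl ⟨k, hk, rfl⟩), fun m hm k => h4 k _ (Or.inl ⟨m, hm, rfl⟩)⟩,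
        fun q hq => ⟨Nat.lt_succ_of_le (Finset.le_sup (f := Prod.fst) hq), fun m k hk => ?_,
          fun m hm k => h4 k _ (Or.inr (mem_biUnion hq ⟨m, hm, rfl⟩))⟩⟩
      have := h2 m _ (Or.inr (mem_biUnion hq ⟨k, hk, rfl⟩))
      have e : G m (J (q.2.2 k)) = 0 := hG0 m _ ⟨q.2.2 k, rfl⟩
      simp only [e, sub_zero] at this
      exact this)
  have hn : ∀ t, t ≤ (p t).1 :=
    (strictMono_nat_of_lt_succ (f := fun t => (p t).1) fun t => (hr _ _ (Nat.lt_succ_self t)).1).id_le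
  choose ψ hψ1 hψ2 using fun m => ulim (fun t => (p t).2.1 m) (fun t => (hp t).1 m)
  have hψ3 : ∀ m k s, k ≤ s → |ψ m ((p s).2.2 k)| ≤ η := by
    intro m k s hk
    refine le_of_tendsto (hψ2 m _).abs ?_
    have : ∀ᶠ t in hyperfilter ℕ, s < t :=
      (Nat.hyperfilter_le_atTop) (eventually_gt_atTop s)
    filter_upwards [this] with t ht using (hr _ _ ht).2.1 m k (hk.trans (hn s))
  refine ⟨fun k s => (p s).2.2 k, fun m t => (p t).2.1 m - ψ m, fun m t k => F k ((p t).2.1 m),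
    fun k s => (hp s).2.1 k,
    fun m t => (norm_sub_le _ _).trans (by linarith [(hp t).1 m, hψ1 m]),
    fun m t k => ((F k).le_opNorm _).trans (by
      nlinarith [(hp t).1 m, hF k, (F k).opNorm_nonneg, norm_nonneg ((p t).2.1 m)]),
    fun m t k _ hk => ?_, fun m t k s hm hk => ?_, fun m x => ?_⟩
  · have a1 := abs_le.1 ((hp t).2.2.1 m k (hk.trans (hn t)))
    have a2 := abs_le.1 (hGF m k)
    rw [abs_le]
    constructor <;> linarith [a1.1, a1.2, a2.1, a2.2]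
  · have a1 := abs_le.1 (hψ3 m k s hk)
    simp only [ContinuousLinearMap.sub_apply]
    rcases lt_trichotomy t s with h | rfl | h
    · have a2 := abs_le.1 ((hr _ _ h).2.2 m (hm.trans (hn t)) k)
      rw [if_pos h.le, abs_le]
      constructor <;> linarith [a1.1, a1.2, a2.1, a2.2]
    · have a2 := abs_le.1 ((hp t).2.2.2 m (hm.trans (hn t)) k)
      rw [if_pos le_rfl, abs_le]
      constructor <;> linarith [a1.1, a1.2, a2.1, a2.2]
    · have a2 := abs_le.1 ((hr _ _ h).2.1 m k (hk.trans (hn s)))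
      rw [if_neg (not_le.2 h), abs_le]
      constructor <;> linarith [a1.1, a1.2, a2.1, a2.2]
  · simpa using (hψ2 m x).sub_const (ψ m x)

end Pool.Agent.KS7_39.A66
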